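import Pool.Agent.Helper46.Holes.Final

/-!
# MP_c993ab_co, Q1: the bound `h_k(n) = O_k(n^{⌈k/3⌉})` is false

`hMax k n` is `h_k(n)`.  The bound fails for every sufficiently large `k`; moreover
`h_k(n) ≥ c n^{(1/2 - ε) k}` for every `ε > 0`, all `k ≥ k₀(ε)` and all large `n`.
-/

namespace Pool.Agent.Results.MP_c993ab_co.ManyHoles

open Pool.Agent.Helper46.Holes

theorem result :
    (¬ ∀ k : ℕ, 6 ≤ k → ∃ C : ℝ, ∀ n : ℕ, 1 ≤ n →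
      (hMax k n : ℝ) ≤ C * (n : ℝ) ^ ⌈(k : ℝ) / 3⌉₊) ∧
    (∃ k₀ : ℕ, ∀ k : ℕ, k₀ ≤ k → ∀ C : ℝ, ∃ n : ℕ, 1 ≤ n ∧
      C * (n : ℝ) ^ ⌈(k : ℝ) / 3⌉₊ < hMax k n) ∧
    (∀ ε : ℝ, 0 < ε → ∃ k₀ : ℕ, ∀ k : ℕ, k₀ ≤ k → ∃ c : ℝ, 0 < c ∧ ∃ n₀ : ℕ, ∀ n : ℕ, n₀ ≤ n →
      c * (n : ℝ) ^ ((1 / 2 - ε) * (k : ℝ)) ≤ hMax k n) := by
  refine ⟨?_, unbounded, fun ε hε => growth hε⟩
  intro h
  obtain ⟨k₀, hk₀⟩ := unbounded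
  obtain ⟨C, hC⟩ := h (max k₀ 6) (le_max_right _ _)
  obtain ⟨n, hn1, hn2⟩ := hk₀ (max k₀ 6) (le_max_left _ _) C
  exact absurd hn2 (not_lt.mpr (hC n hn1))

end Pool.Agent.Results.MP_c993ab_co.ManyHoles
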